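import Pool.Agent.H3.AQ.KA
import Pool.Agent.H3.AM.A1
import Pool.Agent.H16.AMX.P2

/-!
Module K0 of the residue dichotomy (MP_657073_al): every block has a character of height zero.
-/

open scoped Classical ComplexConjugate

namespace AMq

open AMx

section cpow

variable {G : Type} [Group G] [Fintype G]

theorem cpow_cf {z : G → ℂ} (hz : CF z) (n : ℕ) : CF (cpow z n) := by
  induction n with
  | zero => exact cf_delta 1
  | succ n ih => exact ih.conv' hz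

theorem cpow_integral {z : G → ℂ} (hz : ∀ x, IsIntegral ℤ (z x)) (n : ℕ) :
    ∀ x, IsIntegral ℤ (cpow z n x) := by
  induction n with
  | zero =>
    intro x
    change IsIntegral ℤ (if x = 1 then (1 : ℂ) else 0)
    by_cases hx : x = 1
    · rw [if_pos hx]; exact isIntegral_one
    · rw [if_neg hx]; exact isIntegral_zero
  | succ n ih => exact conv_integral ih hz

theorem ww_cpow {χ : G → ℂ} (h : IsIrr χ) {z : G → ℂ} (hz : CF z) (n : ℕ) :
    (∑ x, cpow z n x * χ x) / χ 1 = ((∑ x, z x * χ x) / χ 1) ^ n := by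
  induction n with
  | zero =>
    have : (∑ x : G, cpow z 0 x * χ x) = χ 1 := by
      change (∑ x : G, (if x = 1 then (1 : ℂ) else 0) * χ x) = χ 1
      simp only [ite_mul, one_mul, zero_mul, Finset.sum_ite_eq', Finset.mem_univ, if_true]
    rw [this, div_self h.one_ne, pow_zero]
  | succ n ih =>
    rw [pow_succ, ← ih]
    exact ww_conv h (cpow_cf hz n) hz

end cpow

theorem k0_pos (hC1 : AMx.T_C1) (hL0 : AMx.T_L0) (hL2 : AMx.T_L2) (hE0 : T_E0)
    (hKA : T_KA) (hKB : T_KB) (hKC : T_KC) : T_K0 := by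
  intro ℓ hℓ 𝔪 hm hl G _ _ χ hχ D hD
  obtain ⟨L1, L2, L3, L4, L5, L6, L7, L8⟩ := hL0 𝔪 hm
  obtain ⟨hI, -, -, hcint⟩ := hC1 G χ hχ
  obtain ⟨fs, hfs, hexp, -⟩ := hE0 G
  unfold k0
  set S := {χ' : G → ℂ | χ' ∈ Irr G ∧ SameBlock 𝔪 χ χ' ∧
    ∃ d : ℕ, χ' 1 = d ∧ padicValNat ℓ d = padicValNat ℓ D.index} with hS
  have hfin : S.Finite := by
    refine Set.Finite.subset fs.finite_toSet ?_
    intro θ hθ
    exact (hfs θ).2 hθ.1
  rw [Set.ncard_pos hfin]
  by_contra hemp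
  rw [Set.not_nonempty_iff_eq_empty] at hemp
  -- degrees
  set a := padicValNat ℓ D.index with ha
  obtain ⟨r, hr⟩ : ℓ ^ a ∣ D.index := pow_padicValNat_dvd
  have hD0 : D.index ≠ 0 := Subgroup.index_ne_zero_of_finite
  have hrl : ¬ ℓ ∣ r := by
    rintro ⟨e, he⟩
    have : ℓ ^ (a + 1) ∣ D.index := ⟨e, by rw [hr, he]; ring⟩
    have h3 := (padicValNat_dvd_iff_le hD0).mp this
    omega
  have hdeg : ∀ θ ∈ Irr G, SameBlock 𝔪 χ θ → ∃ m : ℕ, θ 1 = (ℓ : ℂ) ^ (a + 1) * m := by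
    intro θ hθ hb
    obtain ⟨-, ⟨d, hd, hd1⟩, -, -⟩ := hC1 G θ hθ
    have h1 := P2aux.height_le hm hl hC1 hL0 χ θ hχ hθ D hD hb d hd1
    have h2 : padicValNat ℓ d ≠ a := by
      intro h
      have : θ ∈ S := ⟨hθ, hb, d, hd1, h⟩
      rw [hemp] at this
      exact this
    have h3 : a + 1 ≤ padicValNat ℓ d := by omega
    obtain ⟨m, hm'⟩ := (padicValNat_dvd_iff_le hd.ne').mpr h3
    exact ⟨m, by rw [hd1, hm']; push_cast; ring⟩
  obtain ⟨z, hz, hzi, hzb, hz0⟩ := hKA 𝔪 hm G χ hχ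
  -- the expansion
  have hinv : CF (fun x => z x⁻¹) := hz.inv'
  have hexp2 : ∀ x, (Nat.card G : ℂ) * z x⁻¹ = ∑ θ ∈ fs, (∑ g, z g * θ g) * θ x := by
    intro x
    rw [hexp _ hinv x]
    refine Finset.sum_congr rfl fun θ hθ => ?_
    congr 1
    obtain ⟨n, ρ, -, rfl⟩ := (hfs θ).1 hθ
    rw [← sum_inv' (fun g => z g * ρ.character g)]
    refine Finset.sum_congr rfl fun g _ => ?_
    rw [AMc.conj_character]
  have hcG : (Nat.card G : ℂ) = (Nat.card D : ℂ) * ((ℓ : ℂ) ^ a * r) := by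
    rw [← Subgroup.card_mul_index D]
    push_cast
    congr 1
    rw [hr]
    push_cast
    rfl
  have hcD : (Nat.card D : ℂ) ≠ 0 := by exact_mod_cast Nat.card_pos.ne'
  have hlne : (ℓ : ℂ) ^ a ≠ 0 := pow_ne_zero _ (by exact_mod_cast hℓ.out.ne_zero)
  have hnat : ∀ n : ℕ, IsIntegral ℤ (n : ℂ) := fun n => by
    exact_mod_cast isIntegral_algebraMap (R := ℤ) (x := (n : ℤ))
  have hsum : ∀ y ∈ Subgroup.centralizer (D : Set G), Cong 𝔪 (∑ u : D, z (y * u)) 0 := by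
    intro y hy
    have hyi : y⁻¹ ∈ Subgroup.centralizer (D : Set G) := Subgroup.inv_mem _ hy
    -- for each character
    have hterm : ∀ θ ∈ fs, ∃ c : ℂ, IsIntegral ℤ c ∧
        (∑ g, z g * θ g) * ∑ u : D, θ ((y * u)⁻¹) = (Nat.card D : ℂ) * ((ℓ : ℂ) ^ (a + 1) * c) := by
      intro θ hθ
      have hθ' := (hfs θ).1 hθ
      obtain ⟨hIθ, -, -, hcintθ⟩ := hC1 G θ hθ'
      have e1 : ∑ u : D, θ ((y * u)⁻¹) = ∑ u : D, θ (y⁻¹ * u) := by
        rw [← Equiv.sum_comp (Equiv.inv D) (fun u : D => θ (y⁻¹ * u))]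
        refine Finset.sum_congr rfl fun u _ => ?_
        congr 1
        have h1 := Subgroup.mem_centralizer_iff.1 hyi (u : G)⁻¹ (D.inv_mem u.2)
        rw [mul_inv_rev, h1]
        rfl
      rw [e1]
      by_cases hb : SameBlock 𝔪 χ θ
      · obtain ⟨m, hm'⟩ := hdeg θ hθ' hb
        refine ⟨((∑ x, z x * θ x) / θ 1) * (m * ((∑ u : D, θ (y⁻¹ * u)) / (Nat.card D : ℂ))),
          (ww_integral hcintθ hz hzi).mul ((hnat m).mul (hKB G D θ hθ' y⁻¹ hyi)), ?_⟩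
        have hne := hIθ.one_ne
        have e2 : (∑ g, z g * θ g) = ((∑ x, z x * θ x) / θ 1) * ((ℓ : ℂ) ^ (a + 1) * m) := by
          rw [← hm', div_mul_cancel₀ _ hne]
        have e3 : ∑ u : D, θ (y⁻¹ * u) =
            (Nat.card D : ℂ) * ((∑ u : D, θ (y⁻¹ * u)) / (Nat.card D : ℂ)) := by
          rw [mul_div_cancel₀ _ hcD]
        generalize (∑ x, z x * θ x) / θ 1 = w at *
        generalize (∑ u : D, θ (y⁻¹ * u)) / (Nat.card D : ℂ) = A at *
        rw [e2, e3]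
        ring
      · refine ⟨0, isIntegral_zero, ?_⟩
        rw [hz0 θ hθ' hb]
        ring
    choose! c hci hc using hterm
    have e1 : (Nat.card G : ℂ) * ∑ u : D, z (y * u) =
        (Nat.card D : ℂ) * ((ℓ : ℂ) ^ (a + 1) * ∑ θ ∈ fs, c θ) := by
      rw [Finset.mul_sum, Finset.mul_sum, Finset.mul_sum]
      have e2 : ∀ u : D, (Nat.card G : ℂ) * z (y * u) =
          ∑ θ ∈ fs, (∑ g, z g * θ g) * θ ((y * u)⁻¹) := by
        intro u
        have := hexp2 ((y * u)⁻¹)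
        rw [inv_inv] at this
        exact this
      rw [Finset.sum_congr rfl fun u _ => e2 u, Finset.sum_comm]
      refine Finset.sum_congr rfl fun θ hθ => ?_
      rw [← Finset.mul_sum]
      exact hc θ hθ
    have e2 : (r : ℂ) * ∑ u : D, z (y * u) = (∑ θ ∈ fs, c θ) * ℓ := by
      rw [hcG] at e1
      apply mul_left_cancel₀ (mul_ne_zero hcD hlne)
      calc (Nat.card D : ℂ) * (ℓ : ℂ) ^ a * ((r : ℂ) * ∑ u : D, z (y * u)) =
          (Nat.card D : ℂ) * ((ℓ : ℂ) ^ a * r) * ∑ u : D, z (y * u) := by ring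
        _ = (Nat.card D : ℂ) * ((ℓ : ℂ) ^ (a + 1) * ∑ θ ∈ fs, c θ) := e1
        _ = _ := by ring
    have h8 : Cong 𝔪 (ℓ : ℂ) 0 := (L8 ℓ hl ℓ).mpr dvd_rfl
    have h9 := L5 (ℓ : ℂ) 0 (∑ θ ∈ fs, c θ) (IsIntegral.sum _ fun θ hθ => hci θ hθ) h8
    rw [mul_zero, ← e2] at h9
    rcases L7 _ _ (hnat r) (IsIntegral.sum _ fun u _ => hzi _) h9 with h | h
    · exact absurd ((L8 ℓ hl r).mp h) hrl
    · exact h
  obtain ⟨n, hn⟩ := hKC ℓ 𝔪 hm hl G D hD.1 z hz hzi hsum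
  -- the central character of the power
  have hw := hzb χ hχ (fun x => L1 _)
  have hwi := ww_integral hcint hz hzi
  have hwn : ¬ Cong 𝔪 ((∑ x, cpow z n x * χ x) / χ 1) 0 := by
    rw [ww_cpow hI hz n]
    clear hn
    induction n with
    | zero =>
      rw [pow_zero]
      exact not_cong_one hm
    | succ n ih =>
      rw [pow_succ]
      intro h
      rcases L7 _ _ (hwi.pow n) hwi h with h1 | h1
      · exact ih h1
      · exact hw h1
  obtain ⟨x, hx1, hx2⟩ := hL2 𝔪 G χ hI.cf hcint (cpow z n) (cpow_cf hz n) (cpow_integral hzi n) hwn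
  obtain ⟨g, hg⟩ := hD.2.2 x hx2
  apply hx1
  have h1 : g⁻¹ * x * g⁻¹⁻¹ ∈ Subgroup.centralizer (D : Set G) := by
    rw [Subgroup.mem_centralizer_iff]
    intro d hd
    have h2 := Subgroup.mem_centralizer_iff.1 (hg d hd) x (Set.mem_singleton x)
    calc d * (g⁻¹ * x * g⁻¹⁻¹) = g⁻¹ * ((g * d * g⁻¹) * x) * g := by group
      _ = g⁻¹ * (x * (g * d * g⁻¹)) * g := by rw [h2]
      _ = g⁻¹ * x * g⁻¹⁻¹ * d := by group
  rw [← cpow_cf hz n g⁻¹ x]
  exact hn _ h1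

end AMq
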