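import Pool.Agent.H87.AQ.Targets
import Pool.Agent.H14.AMX.L1
import Pool.Agent.H4.AMX.F3
import Pool.Agent.H73.AM.C23

/-!
Module KA of the residue dichotomy (MP_657073_al): an integral element of the centre which lies in
a block and is not nilpotent.
-/

open scoped Classical ComplexConjugate

namespace AMq

open AMx

section ww

variable {G : Type} [Group G] [Fintype G]

theorem ww_integral {χ : G → ℂ} (hint : ∀ x, IsIntegral ℤ (cen (MonoidHom.id G) χ x)) {a : G → ℂ}
    (ha : CF a) (hai : ∀ x, IsIntegral ℤ (a x)) : IsIntegral ℤ ((∑ x, a x * χ x) / χ 1) := by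
  have e1 := AMx.H14.sum_div_eq (MonoidHom.id G) χ ha
  simp only [MonoidHom.id_apply] at e1
  rw [e1]
  exact IsIntegral.sum _ fun c _ => (hai _).mul (hint _)

theorem conv_integral {a b : G → ℂ} (ha : ∀ x, IsIntegral ℤ (a x)) (hb : ∀ x, IsIntegral ℤ (b x))
    (x : G) : IsIntegral ℤ (conv a b x) :=
  IsIntegral.sum _ fun y _ => (ha y).mul (hb _)

theorem ww_conv {χ : G → ℂ} (h : IsIrr χ) {a b : G → ℂ} (ha : CF a) (hb : CF b) :
    (∑ x, conv a b x * χ x) / χ 1 =
      ((∑ x, a x * χ x) / χ 1) * ((∑ x, b x * χ x) / χ 1) := by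
  have hne := h.one_ne
  have := h.mul a b ha hb
  field_simp
  linear_combination this

omit [Fintype G] in
theorem cf_delta (c : ℂ) : CF (fun g : G => if g = 1 then c else 0) := by
  intro g x
  have : g * x * g⁻¹ = 1 ↔ x = 1 := by
    constructor
    · intro h
      have h2 : g * x = g := by
        have := mul_inv_eq_one.1 h
        exact this
      exact mul_eq_left.1 h2
    · rintro rfl
      group
  simp only [this]

theorem cf_class (x : G) : CF (fun g : G => if IsConj x g then (1 : ℂ) else 0) := by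
  intro g y
  have : IsConj x (g * y * g⁻¹) ↔ IsConj x y := by
    constructor
    · intro h
      exact h.trans (isConj_iff.2 ⟨g⁻¹, by group⟩)
    · intro h
      exact h.trans (isConj_iff.2 ⟨g, rfl⟩)
  simp only [this]

theorem not_cong_one {𝔪 : Ideal (integralClosure ℤ ℂ)} (hm : 𝔪.IsMaximal) : ¬ Cong 𝔪 1 0 := by
  rintro ⟨c, hc, h⟩
  apply hm.ne_top
  rw [Ideal.eq_top_iff_one]
  have : c = 1 := Subtype.ext (by simpa using h)
  rwa [this] at hc

end ww

theorem ka (hC1 : AMx.T_C1) (hL0 : AMx.T_L0) (hL1 : AMx.T_L1) (hE0 : T_E0) : T_KA := by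
  intro 𝔪 hm G _ _ χ hχ
  obtain ⟨L1, L2, L3, L4, L5, L6, L7, L8⟩ := hL0 𝔪 hm
  obtain ⟨hI, ⟨d, hd, hd1⟩, hint, hcint⟩ := hC1 G χ hχ
  obtain ⟨fs, hfs, -, -⟩ := hE0 G
  have key : ∀ s : Finset (G → ℂ), (∀ θ ∈ s, θ ∈ Irr G ∧ ¬ SameBlock 𝔪 χ θ) →
      ∃ z : G → ℂ, CF z ∧ (∀ x, IsIntegral ℤ (z x)) ∧
      (∀ χ' ∈ Irr G, SameBlock 𝔪 χ χ' → ¬ Cong 𝔪 ((∑ x, z x * χ' x) / χ' 1) 0) ∧
      ∀ θ ∈ s, ∑ x, z x * θ x = 0 := by
    intro s
    induction s using Finset.induction_on with
    | empty =>
      intro _
      refine ⟨fun g => if g = 1 then 1 else 0, cf_delta 1, ?_, ?_, ?_⟩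
      · intro x
        change IsIntegral ℤ (if x = 1 then (1 : ℂ) else 0)
        by_cases hx : x = 1
        · rw [if_pos hx]; exact isIntegral_one
        · rw [if_neg hx]; exact isIntegral_zero
      · intro χ' hχ' _
        have hne := (hC1 G χ' hχ').1.one_ne
        have : (∑ x : G, (if x = 1 then (1 : ℂ) else 0) * χ' x) / χ' 1 = 1 := by
          simp only [ite_mul, one_mul, zero_mul, Finset.sum_ite_eq', Finset.mem_univ, if_true]
          exact div_self hne
        rw [this]
        exact not_cong_one hm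
      · intro θ hθ
        simp at hθ
    | insert θ s hs ih =>
      intro h
      obtain ⟨z, hz, hzi, hzb, hz0⟩ := ih fun η hη => h η (Finset.mem_insert_of_mem hη)
      obtain ⟨hθ, hθb⟩ := h θ (Finset.mem_insert_self θ s)
      obtain ⟨hIθ, -, hintθ, hcintθ⟩ := hC1 G θ hθ
      unfold SameBlock at hθb
      push Not at hθb
      obtain ⟨x, hx⟩ := hθb
      set c := cen (MonoidHom.id G) θ x with hc
      let y : G → ℂ := fun g => (if IsConj x g then (1 : ℂ) else 0) - (if g = 1 then c else 0)
      have hy : CF y := by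
        intro g u
        exact congrArg₂ (· - ·) (cf_class x g u) (cf_delta (G := G) c g u)
      have hyi : ∀ u, IsIntegral ℤ (y u) := by
        intro u
        apply IsIntegral.sub
        · by_cases hu : IsConj x u
          · rw [if_pos hu]; exact isIntegral_one
          · rw [if_neg hu]; exact isIntegral_zero
        · by_cases hu : u = 1
          · rw [if_pos hu]; exact hcintθ x
          · rw [if_neg hu]; exact isIntegral_zero
      have hsum : ∀ η : G → ℂ, η 1 ≠ 0 →
          (∑ g, y g * η g) / η 1 = cen (MonoidHom.id G) η x - c := by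
        intro η hη
        have e1 : ∑ g, y g * η g = (∑ g, if IsConj x g then η g else 0) - c * η 1 := by
          have e2 : ∀ g, y g * η g = (if IsConj x g then η g else 0) -
              (if g = 1 then c * η 1 else 0) := by
            intro g
            change ((if IsConj x g then (1 : ℂ) else 0) - (if g = 1 then c else 0)) * η g = _
            rw [sub_mul]
            congr 1
            · by_cases hu : IsConj x g
              · rw [if_pos hu, if_pos hu, one_mul]
              · rw [if_neg hu, if_neg hu, zero_mul]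
            · by_cases hu : g = 1
              · rw [if_pos hu, if_pos hu, hu]
              · rw [if_neg hu, if_neg hu, zero_mul]
          rw [Finset.sum_congr rfl fun g _ => e2 g, Finset.sum_sub_distrib]
          congr 1
          rw [Finset.sum_ite_eq' Finset.univ (1 : G)]
          simp
        rw [e1, sub_div, mul_div_cancel_right₀ _ hη, cen_eq]
        congr 2
        refine Finset.sum_congr rfl fun g _ => ?_
        by_cases hu : IsConj x g
        · rw [if_pos hu, if_pos hu, one_mul]
        · rw [if_neg hu, if_neg hu, zero_mul]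
      refine ⟨conv z y, hz.conv' hy, conv_integral hzi hyi, ?_, ?_⟩
      · intro χ' hχ' hb hcon
        have hI' := (hC1 G χ' hχ').1
        rw [ww_conv hI' hz hy] at hcon
        rcases L7 _ _ (ww_integral (hC1 G χ' hχ').2.2.2 hz hzi)
          (ww_integral (hC1 G χ' hχ').2.2.2 hy hyi) hcon with h1 | h1
        · exact hzb χ' hχ' hb h1
        · have h2 := hL1 𝔪 G G (MonoidHom.id G) χ χ' hI.cf hb y hy hyi
          have h3 : Cong 𝔪 ((∑ x, y x * χ x) / χ 1) 0 := L3 _ _ _ h2 h1
          rw [hsum χ hI.one_ne] at h3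
          apply hx
          obtain ⟨e, he, he2⟩ := h3
          exact ⟨e, he, by rw [he2, sub_zero]⟩
      · intro η hη
        have hIη : IsIrr η := by
          rcases Finset.mem_insert.1 hη with rfl | hη'
          · exact hIθ
          · exact (hC1 G η (h η (Finset.mem_insert_of_mem hη')).1).1
        have hne := hIη.one_ne
        have e1 := ww_conv hIη hz hy
        have e2 : (∑ x, z x * η x) / η 1 * ((∑ x, y x * η x) / η 1) = 0 := by
          rcases Finset.mem_insert.1 hη with rfl | hη'
          · rw [hsum η hne, hc, sub_self, mul_zero]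
          · rw [hz0 η hη', zero_div, zero_mul]
        rw [e2, div_eq_zero_iff] at e1
        exact e1.resolve_right hne
  obtain ⟨z, hz, hzi, hzb, hz0⟩ := key (fs.filter fun θ => ¬ SameBlock 𝔪 χ θ) (by
    intro θ hθ
    rw [Finset.mem_filter] at hθ
    exact ⟨(hfs θ).1 hθ.1, hθ.2⟩)
  exact ⟨z, hz, hzi, hzb, fun χ' hχ' hb => hz0 χ' (Finset.mem_filter.2 ⟨(hfs χ').2 hχ', hb⟩)⟩

end AMq
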