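import Pool.Agent.H87.AQ.Targets
import Pool.Agent.H3.AM.A1

/-!
Module KB of the residue dichotomy (MP_657073_al): averages of a character over the cosets `y D`,
`y` centralising `D`, are integral.
-/

open scoped Classical ComplexConjugate

namespace AMq

open AMx

theorem isIntegral_trace_of_pow {n : ℕ} (T : (Fin n → ℂ) →ₗ[ℂ] (Fin n → ℂ)) (m : ℕ) (hm : 0 < m)
    (h : T ^ (m + 1) = T) : IsIntegral ℤ (LinearMap.trace ℂ (Fin n → ℂ) T) := by
  classical
  have htr : LinearMap.trace ℂ (Fin n → ℂ) T = (LinearMap.toMatrix' T).trace := by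
    rw [LinearMap.trace_eq_matrix_trace ℂ (Pi.basisFun ℂ (Fin n))]
    rfl
  rw [htr, Matrix.trace_eq_sum_roots_charpoly]
  refine Multiset.sum_induction _ _ (fun a b ha hb => ha.add hb) isIntegral_zero ?_
  intro z hz
  have hz' := (Polynomial.mem_roots'.mp hz).2
  have h1 : (T.charpoly).IsRoot z := by
    have : T.charpoly = (LinearMap.toMatrix' T).charpoly := by
      rw [← LinearMap.charpoly_toMatrix T (Pi.basisFun ℂ (Fin n))]
      rfl
    rw [this]; exact hz'
  have h2 : Module.End.HasEigenvalue T z := by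
    rw [Module.End.hasEigenvalue_iff_isRoot_charpoly]; exact h1
  obtain ⟨v, hv⟩ := h2.exists_hasEigenvector
  have h3 : z ^ (m + 1) = z := by
    have h4 : (T ^ (m + 1)) v = z ^ (m + 1) • v := by
      exact hv.pow_apply _
    rw [h, hv.apply_eq_smul] at h4
    have h5 : (z ^ (m + 1) - z) • v = 0 := by
      rw [sub_smul, ← h4, sub_self]
    rcases smul_eq_zero.mp h5 with h | h
    · exact sub_eq_zero.mp h
    · exact absurd h hv.2
  by_cases hz0 : z = 0
  · rw [hz0]; exact isIntegral_zero
  · refine IsIntegral.of_pow hm ?_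
    have h4 : z ^ m = 1 := by
      rw [pow_succ] at h3
      exact mul_right_cancel₀ hz0 (by rw [h3, one_mul])
    rw [h4]; exact isIntegral_one

theorem kb : T_KB := by
  intro G _ _ D χ hχ y hy
  obtain ⟨n, ρ, -, rfl⟩ := hχ
  have hc : (Nat.card D : ℂ) ≠ 0 := by exact_mod_cast Nat.card_pos.ne'
  let P : (Fin n → ℂ) →ₗ[ℂ] (Fin n → ℂ) := (Nat.card D : ℂ)⁻¹ • ∑ u : D, ρ (u : G)
  have hP1 : ∀ u : D, ρ (u : G) * P = P := by
    intro u
    simp only [P]
    rw [mul_smul_comm, Finset.mul_sum]
    congr 1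
    rw [← Equiv.sum_comp (Equiv.mulLeft u) (fun v : D => ρ (v : G))]
    refine Finset.sum_congr rfl fun v _ => ?_
    rw [← map_mul]
    rfl
  have hPP : P * P = P := by
    have h1 : P * P = (Nat.card D : ℂ)⁻¹ • ∑ u : D, (ρ (u : G) * P) := by
      conv_lhs => rw [show P * P = ((Nat.card D : ℂ)⁻¹ • ∑ u : D, ρ (u : G)) * P from rfl]
      rw [smul_mul_assoc, Finset.sum_mul]
    rw [h1, Finset.sum_congr rfl fun u _ => hP1 u, Finset.sum_const, Finset.card_univ,
      ← Nat.card_eq_fintype_card, ← Nat.cast_smul_eq_nsmul ℂ, smul_smul, inv_mul_cancel₀ hc,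
      one_smul]
  have hcomm : ρ y * P = P * ρ y := by
    simp only [P]
    rw [mul_smul_comm, smul_mul_assoc, Finset.mul_sum, Finset.sum_mul]
    congr 1
    refine Finset.sum_congr rfl fun u _ => ?_
    rw [← map_mul, ← map_mul, (Subgroup.mem_centralizer_iff.1 hy u u.2)]
  set m := Fintype.card G with hm
  have hm0 : 0 < m := Fintype.card_pos
  have hT : (ρ y * P) ^ (m + 1) = ρ y * P := by
    have h1 : (ρ y * P) ^ (m + 1) = (ρ y) ^ (m + 1) * P ^ (m + 1) :=
      Commute.mul_pow hcomm _
    have h2 : P ^ (m + 1) = P := by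
      have : ∀ k : ℕ, P ^ (k + 1) = P := by
        intro k
        induction k with
        | zero => rw [zero_add, pow_one]
        | succ k ih => rw [pow_succ, ih, hPP]
      exact this m
    have h3 : (ρ y) ^ (m + 1) = ρ y := by
      rw [pow_succ, ← map_pow, hm, pow_card_eq_one, map_one, one_mul]
    rw [h1, h2, h3]
  have key := isIntegral_trace_of_pow (ρ y * P) m hm0 hT
  have e : LinearMap.trace ℂ (Fin n → ℂ) (ρ y * P) =
      (∑ u : D, ρ.character (y * u)) / (Nat.card D : ℂ) := by
    simp only [P]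
    rw [mul_smul_comm, Finset.mul_sum, map_smul, map_sum, smul_eq_mul, div_eq_inv_mul]
    congr 1
    refine Finset.sum_congr rfl fun u _ => ?_
    rw [← map_mul]
    rfl
  rw [← e]
  exact key

end AMq
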