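import Pool.Agent.H87.AQ.Targets
import Pool.Agent.H3.AM.Basic
import Pool.Agent.H69.AM.C1

/-!
Module KC of the residue dichotomy (MP_657073_al): nilpotency modulo `𝔪` on the centraliser of an
`ℓ`-subgroup.
-/

open scoped Classical ComplexConjugate

namespace AMq

open AMx

/-- `x` nilpotent and `t` central nilpotent imply `x + v * t` nilpotent -/
theorem nil_add {B : Type*} [Ring B] {x v t : B} (hx : IsNilpotent x) (ht : IsNilpotent t)
    (hc : ∀ b, t * b = b * t) : IsNilpotent (x + v * t) := by
  have key : ∀ n : ℕ, ∃ c, (x + v * t) ^ n = x ^ n + c * t := by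
    intro n
    induction n with
    | zero => exact ⟨0, by simp⟩
    | succ n ih =>
      obtain ⟨c, hcn⟩ := ih
      refine ⟨x ^ n * v + c * (x + v * t), ?_⟩
      have e : c * t * (x + v * t) = c * (x + v * t) * t := by
        rw [mul_assoc, hc, ← mul_assoc]
      rw [pow_succ, hcn, pow_succ, add_mul, e, mul_add, add_mul (x ^ n * v), mul_assoc (x ^ n) v t]
      abel
  obtain ⟨n, hn⟩ := hx
  obtain ⟨m, hm⟩ := ht
  obtain ⟨c, hcn⟩ := key n
  rw [hn, zero_add] at hcn
  refine ⟨n * m, ?_⟩
  rw [pow_mul, hcn]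
  have hcomm : Commute c t := (hc c).symm
  rw [hcomm.mul_pow, hm, mul_zero]

theorem nil_sum {B : Type*} [Ring B] {ι : Type*} (s : Finset ι) (v t : ι → B)
    (hc : ∀ i b, t i * b = b * t i) (hn : ∀ i, IsNilpotent (t i)) :
    IsNilpotent (∑ i ∈ s, v i * t i) := by
  induction s using Finset.induction_on with
  | empty => rw [Finset.sum_empty]; exact IsNilpotent.zero
  | insert a s ha ih =>
    rw [Finset.sum_insert ha, add_comm]
    exact nil_add ih (hn a) (hc a)

/-- elements of a group algebra in characteristic `ℓ` whose sums over the cosets of a central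
`ℓ`-subgroup vanish are nilpotent -/
theorem nil_of_cosets {F : Type} [Field F] (ℓ : ℕ) [Fact ℓ.Prime] [CharP F ℓ] {C : Type} [Group C]
    [Fintype C] (Z : Subgroup C) (hZ : IsPGroup ℓ Z) (hcen : ∀ z ∈ Z, ∀ c, z * c = c * z)
    (w : MonoidAlgebra F C)
    (hw : ∀ y : C, ∑ u : C, (if u ∈ Z then w.coeff (y * u) else 0) = 0) : IsNilpotent w := by
  have hCP : CharP (MonoidAlgebra F C) ℓ :=
    charP_of_injective_algebraMap (algebraMap F (MonoidAlgebra F C)).injective ℓ
  let r : C → C := fun y => Quotient.out (QuotientGroup.mk y : C ⧸ Z)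
  have hr : ∀ y, (r y)⁻¹ * y ∈ Z := by
    intro y
    have h1 : (QuotientGroup.mk (r y) : C ⧸ Z) = QuotientGroup.mk y := Quotient.out_eq _
    exact QuotientGroup.eq.1 h1
  have hr2 : ∀ y u, u ∈ Z → r (y * u) = r y := by
    intro y u hu
    have h1 : (QuotientGroup.mk (y * u) : C ⧸ Z) = QuotientGroup.mk y := by
      symm
      rw [QuotientGroup.eq]
      simpa using hu
    change Quotient.out (QuotientGroup.mk (y * u) : C ⧸ Z) = Quotient.out (QuotientGroup.mk y : C ⧸ Z)
    rw [h1]
  -- the sum over representatives vanishes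
  have h0 : ∑ y : C, MonoidAlgebra.single (r y) (w.coeff y) = 0 := by
    apply MonoidAlgebra.ext
    ext g
    have e1 : (∑ y : C, MonoidAlgebra.single (r y) (w.coeff y)).coeff g =
        ∑ y : C, if r y = g then w.coeff y else 0 := by
      rw [MonoidAlgebra.coeff_sum, Finsupp.finsetSum_apply]
      refine Finset.sum_congr rfl fun y _ => ?_
      rw [MonoidAlgebra.coeff_single, Finsupp.single_apply]
    rw [e1]
    by_cases hg : r g = g
    · have e2 : ∀ y : C, (if r y = g then w.coeff y else 0) =
          if g⁻¹ * y ∈ Z then w.coeff y else 0 := by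
        intro y
        by_cases hy : r y = g
        · rw [if_pos hy, if_pos]
          rw [← hy]
          exact hr y
        · rw [if_neg hy, if_neg]
          intro h
          apply hy
          have h2 := hr2 g (g⁻¹ * y) h
          rw [mul_inv_cancel_left, hg] at h2
          exact h2
      rw [Finset.sum_congr rfl fun y _ => e2 y,
        ← Equiv.sum_comp (Equiv.mulLeft g) (fun y => if g⁻¹ * y ∈ Z then w.coeff y else 0)]
      refine Eq.trans (Finset.sum_congr rfl fun u _ => ?_) (hw g)
      simp only [Equiv.coe_mulLeft, inv_mul_cancel_left]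
    · apply Finset.sum_eq_zero
      intro y _
      rw [if_neg]
      intro h
      apply hg
      have h2 := hr2 y (y⁻¹ * r y) (by
        have := Z.inv_mem (hr y)
        simpa using this)
      rw [mul_inv_cancel_left, h] at h2
      exact h2
  have hsum : w = ∑ y : C, MonoidAlgebra.single y (w.coeff y) := by
    apply MonoidAlgebra.ext
    ext g
    rw [MonoidAlgebra.coeff_sum, Finsupp.finsetSum_apply, Finset.sum_eq_single g]
    · rw [MonoidAlgebra.coeff_single, Finsupp.single_apply, if_pos rfl]
    · intro b _ hb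
      rw [MonoidAlgebra.coeff_single, Finsupp.single_apply, if_neg hb]
    · intro h; exact absurd (Finset.mem_univ _) h
  have hw2 : w = ∑ y : C, MonoidAlgebra.single (r y) (w.coeff y) *
      (MonoidAlgebra.single ((r y)⁻¹ * y) 1 - 1) := by
    have e4 : ∀ y : C, MonoidAlgebra.single (r y) (w.coeff y) *
        (MonoidAlgebra.single ((r y)⁻¹ * y) 1 - 1) =
        MonoidAlgebra.single y (w.coeff y) - MonoidAlgebra.single (r y) (w.coeff y) := by
      intro y
      rw [mul_sub, mul_one, MonoidAlgebra.single_mul_single, mul_inv_cancel_left, mul_one]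
    rw [Finset.sum_congr rfl fun y _ => e4 y, Finset.sum_sub_distrib, h0, sub_zero, ← hsum]
  rw [hw2]
  apply nil_sum
  · intro y b
    have h1 : MonoidAlgebra.single ((r y)⁻¹ * y) (1 : F) * b =
        b * MonoidAlgebra.single ((r y)⁻¹ * y) (1 : F) := by
      apply MonoidAlgebra.ext
      ext g
      rw [AMc.coeff_mul_group, AMc.coeff_mul_group]
      rw [Finset.sum_eq_single ((r y)⁻¹ * y), Finset.sum_eq_single (g * ((r y)⁻¹ * y)⁻¹)]
      · rw [MonoidAlgebra.coeff_single, Finsupp.single_apply, Finsupp.single_apply, if_pos rfl,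
          one_mul, if_pos (by group), mul_one]
        congr 1
        have h2 := hcen _ (Z.inv_mem (hr y)) g
        exact h2
      · intro a _ ha
        rw [MonoidAlgebra.coeff_single, Finsupp.single_apply, if_neg, mul_zero]
        intro h
        apply ha
        rw [h]
        group
      · intro h; exact absurd (Finset.mem_univ _) h
      · intro a _ ha
        rw [MonoidAlgebra.coeff_single, Finsupp.single_apply, if_neg (Ne.symm ha), zero_mul]
      · intro h; exact absurd (Finset.mem_univ _) h
    rw [sub_mul, mul_sub, h1, one_mul, mul_one]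
  · intro y
    obtain ⟨k, hk⟩ := hZ ⟨(r y)⁻¹ * y, hr y⟩
    have hk' : ((r y)⁻¹ * y) ^ (ℓ ^ k) = 1 := congrArg Subtype.val hk
    refine ⟨ℓ ^ k, ?_⟩
    rw [sub_pow_char_pow_of_commute _ _ (Commute.one_right _), one_pow, MonoidAlgebra.single_pow,
      hk', one_pow]
    exact sub_self _

/-- KC: nilpotency modulo `𝔪` on the centraliser of `D` -/
theorem kc (hD1 : AMc.T_D1) : T_KC := by
  intro ℓ _ 𝔪 hm hℓ G _ _ D hD z hz hint hsum
  let F := integralClosure ℤ ℂ ⧸ 𝔪
  let _ : Field F := Ideal.Quotient.field 𝔪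
  let π : integralClosure ℤ ℂ →+* F := Ideal.Quotient.mk 𝔪
  have hker : RingHom.ker π = 𝔪 := Ideal.mk_ker
  have hCF : CharP F ℓ := by
    have hlp : ℓ.Prime := Fact.out
    have h1 : ((ℓ : ℕ) : F) = 0 := by
      have : π (ℓ : integralClosure ℤ ℂ) = 0 := Ideal.Quotient.eq_zero_iff_mem.2 hℓ
      simpa using this
    exact (CharP.charP_iff_prime_eq_zero hlp).2 h1
  let zb : MonoidAlgebra F G := ∑ g : G, MonoidAlgebra.single g (AMc.rd π (z g))
  have hzb : ∀ g, zb.coeff g = AMc.rd π (z g) := by
    intro g
    change (∑ g : G, MonoidAlgebra.single g (AMc.rd π (z g))).coeff g = _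
    rw [MonoidAlgebra.coeff_sum, Finsupp.finsetSum_apply, Finset.sum_eq_single g]
    · rw [MonoidAlgebra.coeff_single, Finsupp.single_apply, if_pos rfl]
    · intro b _ hb
      rw [MonoidAlgebra.coeff_single, Finsupp.single_apply, if_neg hb]
    · intro h; exact absurd (Finset.mem_univ _) h
  have hpow : ∀ n : ℕ, (∀ x, IsIntegral ℤ (cpow z n x)) ∧
      ∀ g, (zb ^ n).coeff g = AMc.rd π (cpow z n g) := by
    intro n
    induction n with
    | zero =>
      refine ⟨fun x => ?_, fun g => ?_⟩
      · unfold cpow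
        split_ifs
        · exact isIntegral_one
        · exact isIntegral_zero
      · rw [pow_zero, MonoidAlgebra.one_def, MonoidAlgebra.coeff_single, Finsupp.single_apply]
        unfold cpow
        by_cases hg : g = 1
        · rw [if_pos hg.symm, if_pos hg, AMc.rd_one]
        · rw [if_neg (Ne.symm hg), if_neg hg, AMc.rd_zero]
    | succ n ih =>
      have h1 : ∀ g : G, ∀ i ∈ Finset.univ, IsIntegral ℤ (cpow z n i * z (i⁻¹ * g)) :=
        fun g i _ => (ih.1 i).mul (hint _)
      refine ⟨fun g => (AMc.rd_sum π Finset.univ (fun i => cpow z n i * z (i⁻¹ * g)) (h1 g)).1,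
        fun g => ?_⟩
      have h2 := (AMc.rd_sum π Finset.univ (fun i => cpow z n i * z (i⁻¹ * g)) (h1 g)).2
      rw [pow_succ, AMc.coeff_mul_group]
      change _ = AMc.rd π (∑ i, cpow z n i * z (i⁻¹ * g))
      rw [h2]
      refine Finset.sum_congr rfl fun i _ => ?_
      rw [ih.2, hzb, AMc.rd_mul π (ih.1 i) (hint _)]
  have hZA : zb ∈ AMc.ZA F (⊤ : Subgroup G) D := by
    refine ⟨fun g hg => absurd (Subgroup.mem_top g) hg, fun u _ g => ?_⟩
    rw [hzb, hzb, hz]
  have hbr : ∀ n : ℕ, AMc.br D (zb ^ n) = (AMc.br D zb) ^ n := by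
    intro n
    induction n with
    | zero => rw [pow_zero, pow_zero, AMc.br_one]
    | succ n ih =>
      rw [pow_succ, pow_succ, hD1 F ℓ G D hD _ ((AMc.ZA F (⊤ : Subgroup G) D).pow_mem hZA n) _ hZA,
        ih]
  -- the restriction to the centraliser
  let C : Subgroup G := Subgroup.centralizer (D : Set G)
  let Z : Subgroup C := D.subgroupOf C
  let w : MonoidAlgebra F C := ∑ y : C, MonoidAlgebra.single y (AMc.rd π (z y))
  have hwc : ∀ y : C, w.coeff y = AMc.rd π (z y) := by
    intro y
    change (∑ y : C, MonoidAlgebra.single y (AMc.rd π (z y))).coeff y = _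
    rw [MonoidAlgebra.coeff_sum, Finsupp.finsetSum_apply, Finset.sum_eq_single y]
    · rw [MonoidAlgebra.coeff_single, Finsupp.single_apply, if_pos rfl]
    · intro b _ hb
      rw [MonoidAlgebra.coeff_single, Finsupp.single_apply, if_neg hb]
    · intro h; exact absurd (Finset.mem_univ _) h
  have hZp : IsPGroup ℓ Z := by
    rintro ⟨y, hy⟩
    obtain ⟨k, hk⟩ := hD ⟨(y : G), hy⟩
    refine ⟨k, ?_⟩
    have hk' : (y : G) ^ (ℓ ^ k) = 1 := congrArg Subtype.val hk
    exact Subtype.ext (Subtype.ext hk')
  have hZc : ∀ u ∈ Z, ∀ c : C, u * c = c * u := by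
    intro u hu c
    apply Subtype.ext
    exact (Subgroup.mem_centralizer_iff.1 c.2 (u : G) hu)
  have hcos : ∀ y : C, ∑ u : C, (if u ∈ Z then w.coeff (y * u) else 0) = 0 := by
    intro y
    let act : MulAction D D :=
      { smul := fun q u => q * u * q⁻¹
        one_smul := fun u => by
          change (1 : D) * u * (1 : D)⁻¹ = u
          rw [one_mul, inv_one, mul_one]
        mul_smul := fun q q' u => by
          change (q * q') * u * (q * q')⁻¹ = q * (q' * u * q'⁻¹) * q⁻¹
          group }
    have h1 := @AMc.fixed_sum F _ ℓ _ _ F _ _ D D _ _ act _ hD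
      (fun u : D => AMc.rd π (z ((y : G) * u))) (by
        intro q u
        change AMc.rd π (z ((y : G) * ((q * u * q⁻¹ : D) : G))) = AMc.rd π (z ((y : G) * u))
        have h2 : (y : G) * ((q * u * q⁻¹ : D) : G) = (q : G) * ((y : G) * u) * (q : G)⁻¹ := by
          have h3 : (q : G) * (y : G) = (y : G) * (q : G) :=
            Subgroup.mem_centralizer_iff.1 y.2 (q : G) q.2
          push_cast
          rw [← mul_assoc (q : G) (y : G), h3]
          simp only [mul_assoc]
        rw [h2, hz])
    have h2 : ∑ u : D, AMc.rd π (z ((y : G) * u)) = 0 := by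
      have h3 := AMc.rd_sum π Finset.univ (fun u : D => z ((y : G) * u)) (fun i _ => hint _)
      rw [← h3.2, ← AMc.cong_zero_iff π h3.1, hker]
      exact hsum y y.2
    rw [h2] at h1
    have h1' : ∑ u ∈ Finset.univ.filter (fun u : D => ∀ q : D, act.toSMul.smul q u = u),
        AMc.rd π (z ((y : G) * u)) = 0 := by
      rw [Finset.sum_filter]
      refine Eq.trans (Finset.sum_congr rfl fun u _ => ?_) h1.symm
      by_cases hu : ∀ q : D, act.toSMul.smul q u = u
      · rw [if_pos hu]
        exact (if_pos hu).symm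
      · rw [if_neg hu]
        exact (if_neg hu).symm
    refine Eq.trans ?_ h1'
    rw [← Finset.sum_filter]
    symm
    have hfix : ∀ u : D, u ∈ Finset.univ.filter (fun u : D => ∀ q : D, act.toSMul.smul q u = u) →
        (u : G) ∈ C := by
      intro u hu
      rw [Finset.mem_filter] at hu
      rw [Subgroup.mem_centralizer_iff]
      intro q hq
      have h4 : (⟨q, hq⟩ : D) * u * (⟨q, hq⟩ : D)⁻¹ = u := hu.2 ⟨q, hq⟩
      have h5 : q * (u : G) * q⁻¹ = u := congrArg Subtype.val h4
      calc q * (u : G) = (q * u * q⁻¹) * q := by group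
        _ = u * q := by rw [h5]
    refine Finset.sum_bij' (fun u hu => (⟨(u : G), hfix u hu⟩ : C))
      (fun c hc => (⟨(c : G), (Finset.mem_filter.1 hc).2⟩ : D)) ?_ ?_ ?_ ?_ ?_
    · intro u hu
      rw [Finset.mem_filter]
      exact ⟨Finset.mem_univ _, u.2⟩
    · intro c hc
      rw [Finset.mem_filter]
      refine ⟨Finset.mem_univ _, fun q => ?_⟩
      apply Subtype.ext
      change (q : G) * (c : G) * (q : G)⁻¹ = c
      rw [Subgroup.mem_centralizer_iff.1 c.2 (q : G) q.2]
      group
    · intro u hu
      rfl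
    · intro c hc
      rfl
    · intro u hu
      rw [hwc]
      rfl
  obtain ⟨n, hn⟩ := nil_of_cosets ℓ Z hZp hZc w hcos
  -- transfer to the group algebra of `G`
  have hι : MonoidAlgebra.mapDomainRingHom F C.subtype w = AMc.br D zb := by
    have e1 : MonoidAlgebra.mapDomainRingHom F C.subtype w =
        ∑ y : C, MonoidAlgebra.single (y : G) (AMc.rd π (z y)) := by
      change MonoidAlgebra.mapDomainRingHom F C.subtype
        (∑ y : C, MonoidAlgebra.single y (AMc.rd π (z y))) = _
      rw [map_sum]
      refine Finset.sum_congr rfl fun y _ => ?_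
      exact MonoidAlgebra.mapDomain_single
    rw [e1]
    apply MonoidAlgebra.ext
    ext g
    rw [AMc.coeff_br, MonoidAlgebra.coeff_sum, Finsupp.finsetSum_apply]
    by_cases hg : g ∈ Subgroup.centralizer (D : Set G)
    · rw [if_pos hg, Finset.sum_eq_single (⟨g, hg⟩ : C), hzb, MonoidAlgebra.coeff_single,
        Finsupp.single_apply, if_pos rfl]
      · intro b _ hb
        rw [MonoidAlgebra.coeff_single, Finsupp.single_apply, if_neg]
        intro h
        exact hb (Subtype.ext h)
      · intro h; exact absurd (Finset.mem_univ _) h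
    · rw [if_neg hg]
      apply Finset.sum_eq_zero
      intro b _
      rw [MonoidAlgebra.coeff_single, Finsupp.single_apply, if_neg]
      intro h
      apply hg
      rw [← h]
      exact b.2
  have hbn : AMc.br D (zb ^ n) = 0 := by
    rw [hbr, ← hι, ← map_pow, hn, map_zero]
  refine ⟨n, fun x hx => ?_⟩
  have h1 := AMc.coeff_br D (zb ^ n) x
  rw [hbn, if_pos hx, (hpow n).2] at h1
  have h2 : AMc.rd π (cpow z n x) = 0 := h1.symm
  rw [← AMc.cong_zero_iff π ((hpow n).1 x), hker] at h2
  exact h2

end AMq
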